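import Pool.Agent.Q70.WeakInterpTot

/-!
# No syndetic set is a weak interpolation set of order 2 for totally transitive systems

The function `f = 1 - z`, where `z` is a periodic `0`-`1` sequence containing all words of
length `L + 1`, cannot be interpolated along a set `S` meeting every interval of length `L`: by
total transitivity the first `L + 1` values of `n ↦ F (T ^ n x)` come back, up to a small error,
at a time in the residue class where `z` shows the opposite word.
-/

open Q70.WeakInterp

universe u

/-- **Answer: no.**  If `S ⊆ ℕ` is syndetic then `S` is not a weak interpolation set of order `2`
for the class of totally transitive systems on compact metric spaces. -/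
theorem Pool.Agent.Results.MP_816335_an.NoSyndetic.result :
    ¬ ∃ S : Set ℕ, (∀ n ∈ S, 1 ≤ n) ∧ Syndetic S ∧
      IsWeakInterpolationSet.{u} TDS.TotallyTransitive 2 S := by
  rintro ⟨S, -, hS, h⟩
  exact not_syndetic hS h
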